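import Mathlib

/-! The Hardy-Littlewood function `rho` and the chain argument (helper206). -/

set_option autoImplicit false

namespace Pool.Agent.H206R2

open Filter

/-- `rho y = limsup_{x → ∞} (π(x+y) - π(x))`. -/
noncomputable def rho (y : ℕ) : ℕ :=
  Filter.limsup (fun x : ℕ => Nat.primeCounting (x + y) - Nat.primeCounting x) Filter.atTop

theorem pc_mono {a b : ℕ} (h : a ≤ b) : Nat.primeCounting a ≤ Nat.primeCounting b :=
  Nat.monotone_primeCounting h

theorem pc_add_le (x y : ℕ) : Nat.primeCounting (x + y) ≤ Nat.primeCounting x + y := by
  induction y with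
  | zero => simp
  | succ n ih =>
    have : Nat.primeCounting (x + n + 1) ≤ Nat.primeCounting (x + n) + 1 := by
      simp only [Nat.primeCounting, Nat.primeCounting']
      rw [Nat.count_succ]
      split_ifs <;> omega
    rw [← add_assoc]
    omega

/-- Basic property: late windows contain at most `rho y` primes. -/
theorem rho_upper (y : ℕ) :
    ∀ᶠ x in atTop, Nat.primeCounting (x + y) ≤ Nat.primeCounting x + rho y := by
  have hb : IsBoundedUnder (· ≤ ·) atTop
      (fun x : ℕ => Nat.primeCounting (x + y) - Nat.primeCounting x) :=
    ⟨y, by
      rw [eventually_map]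
      exact Eventually.of_forall fun x => by
        have := pc_add_le x y
        show Nat.primeCounting (x + y) - Nat.primeCounting x ≤ y
        omega⟩
  have h : ∀ᶠ x in atTop,
      Nat.primeCounting (x + y) - Nat.primeCounting x < rho y + 1 := by
    apply eventually_lt_of_limsup_lt _ hb
    exact Nat.lt_succ_self _
  filter_upwards [h] with x hx
  omega

/-- Basic property: infinitely many windows contain exactly `rho y` primes. -/
theorem rho_attained (y : ℕ) :
    ∃ᶠ x in atTop, Nat.primeCounting (x + y) = Nat.primeCounting x + rho y := by
  have hcb : IsCoboundedUnder (· ≤ ·) atTop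
      (fun x : ℕ => Nat.primeCounting (x + y) - Nat.primeCounting x) := by
    apply IsBoundedUnder.isCoboundedUnder_le
    exact ⟨0, by
      rw [eventually_map]
      exact Eventually.of_forall fun x => Nat.zero_le _⟩
  have h1 : ∃ᶠ x in atTop, Nat.primeCounting x + rho y ≤ Nat.primeCounting (x + y) := by
    rcases Nat.eq_zero_or_pos (rho y) with h0 | h0
    · refine (Eventually.of_forall fun x => ?_).frequently
      rw [h0]
      exact pc_mono (Nat.le_add_right _ _)
    · have h : ∃ᶠ x in atTop, rho y - 1 <
          Nat.primeCounting (x + y) - Nat.primeCounting x := by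
        apply frequently_lt_of_lt_limsup hcb
        show rho y - 1 < rho y
        omega
      exact h.mono fun x hx => by omega
  exact (h1.and_eventually (rho_upper y)).mono fun x hx => le_antisymm hx.2 hx.1

theorem rho_mono {a b : ℕ} (h : a ≤ b) : rho a ≤ rho b := by
  obtain ⟨x, hx1, hx2⟩ := ((rho_attained a).and_eventually (rho_upper b)).exists
  have := pc_mono (show x + a ≤ x + b by omega)
  omega

theorem rho_add (a b : ℕ) : rho (a + b) ≤ rho a + rho b := by
  obtain ⟨xa, ha⟩ := eventually_atTop.1 (rho_upper a)
  obtain ⟨xb, hb⟩ := eventually_atTop.1 (rho_upper b)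
  obtain ⟨x, hx1, hx2⟩ := ((rho_attained (a + b)).and_eventually
    (eventually_ge_atTop (max xa xb))).exists
  have h1 := ha x (le_trans (le_max_left _ _) hx2)
  have h2 := hb (x + a) (le_trans (le_trans (le_max_right _ _) hx2) (Nat.le_add_right _ _))
  rw [add_assoc] at h2
  omega

/-- `Ext b t`: the window `(t, t+b]` contains exactly `rho b` primes. -/
def Ext (b t : ℕ) : Prop := Nat.primeCounting (t + b) = Nat.primeCounting t + rho b

/-- Chain lemma: if for every `b ≥ a` there are infinitely many extremal windows `(t,t+b]` across
which `rho` is additive, then extremal windows of length `a` start at multiples of every `M`. -/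
theorem chain (a : ℕ)
    (H : ∀ b, a ≤ b → ∃ᶠ t in atTop, Ext b t ∧ rho t + rho b ≤ rho (t + b)) (n : ℕ) :
    ∃ f : ℕ → ℕ, f 0 = a ∧ (∀ i, i < n → f i < f (i + 1)) ∧
      (∀ i j, i < j → j ≤ n → Ext a (f j - f i)) ∧
      (∀ᶠ x in atTop, Ext (f n) x → ∀ i, i ≤ n → Ext a (x + (f n - f i))) := by
  induction n with
  | zero =>
    refine ⟨fun _ => a, rfl, ?_, ?_, ?_⟩
    · intro i hi; omega
    · intro i j h1 h2; omega
    · refine Eventually.of_forall fun x hx i hi => ?_
      simpa using hx
  | succ n ih =>
    obtain ⟨f, h0, hinc, hpair, hev⟩ := ih
    have hmono : ∀ i, i ≤ n → a ≤ f i := by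
      intro i
      induction i with
      | zero => intro _; rw [h0]
      | succ k ihk =>
        intro hk
        have := hinc k (by omega)
        have := ihk (by omega)
        omega
    have hle : ∀ i, i ≤ n → f i ≤ f n := by
      intro i hi
      obtain ⟨d, rfl⟩ := Nat.exists_eq_add_of_le hi
      clear hi
      have : ∀ e, e ≤ d → f i ≤ f (i + e) := by
        intro e
        induction e with
        | zero => intro _; rfl
        | succ k ihk =>
          intro hk
          have h1 := ihk (by omega)
          have h2 := hinc (i + k) (by omega)
          rw [← add_assoc]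
          omega
      exact this d le_rfl
    obtain ⟨t, ⟨hext, hadd⟩, hevt, htpos⟩ :=
      ((H (f n) (hmono n le_rfl)).and_eventually
        (hev.and (eventually_ge_atTop (1 : ℕ)))).exists
    refine ⟨fun i => if i ≤ n then f i else t + f n, ?_, ?_, ?_, ?_⟩
    · simp [h0]
    · intro i hi
      rcases Nat.lt_or_ge i n with h | h
      · have h1 : i ≤ n := by omega
        have h2 : i + 1 ≤ n := by omega
        simp only [h1, h2, if_true]
        exact hinc i h
      · have : i = n := by omega
        subst this
        have h2 : ¬ (i + 1 ≤ i) := by omega
        simp only [le_refl, if_true, h2, if_false]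
        omega
    · intro i j hij hj
      rcases Nat.lt_or_ge n j with h | h
      · have h1 : i ≤ n := by omega
        have h2 : ¬ (j ≤ n) := by omega
        simp only [h1, h2, if_true, if_false]
        have h3 := hevt hext i h1
        have h4 : t + f n - f i = t + (f n - f i) := by
          have := hle i h1
          omega
        rw [h4]
        exact h3
      · have h1 : i ≤ n := by omega
        simp only [h1, h, if_true]
        exact hpair i j hij h
    · have h2 : ¬ (n + 1 ≤ n) := by omega
      simp only [h2, if_false]
      obtain ⟨X1, hX1⟩ := eventually_atTop.1 hev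
      obtain ⟨X2, hX2⟩ := eventually_atTop.1 (rho_upper t)
      obtain ⟨X3, hX3⟩ := eventually_atTop.1 (rho_upper (f n))
      refine eventually_atTop.2 ⟨max X1 (max X2 X3), fun x hx hE i hi => ?_⟩
      have hx1 : X1 ≤ x := le_trans (le_max_left _ _) hx
      have hx2 : X2 ≤ x := le_trans (le_trans (le_max_left _ _) (le_max_right _ _)) hx
      have hx3 : X3 ≤ x := le_trans (le_trans (le_max_right _ _) (le_max_right _ _)) hx
      -- prefix
      have hE' : Nat.primeCounting (x + (t + f n)) = Nat.primeCounting x + rho (t + f n) := hE
      have hpre : Ext (f n) x := by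
        have a1 := hX3 x hx3
        have a2 := hX2 (x + f n) (by omega)
        rw [show x + f n + t = x + (t + f n) by ring] at a2
        unfold Ext
        omega
      have hsuf : Ext (f n) (x + t) := by
        have a1 := hX3 (x + t) (by omega)
        have a2 := hX2 x hx2
        rw [show x + t + f n = x + (t + f n) by ring] at a1
        unfold Ext
        rw [show x + t + f n = x + (t + f n) by ring]
        omega
      rcases Nat.lt_or_ge n i with h | h
      · have h3 : ¬ (i ≤ n) := by omega
        simp only [h3, if_false]
        have := hX1 x hx1 hpre n le_rfl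
        simpa using this
      · simp only [h, if_true]
        have h3 := hX1 (x + t) (by omega) hsuf i h
        have h4 : x + (t + f n - f i) = x + t + (f n - f i) := by
          have := hle i h
          omega
        rw [h4]
        exact h3

/-- If `rho` is additive across infinitely many extremal windows of every length `≥ a`, then
`rho a ≤ 1`. -/
theorem rho_le_one (a : ℕ)
    (H : ∀ b, a ≤ b → ∃ᶠ t in atTop, Ext b t ∧ rho t + rho b ≤ rho (t + b)) : rho a ≤ 1 := by
  set M := a.factorial with hM
  have hMpos : 0 < M := Nat.factorial_pos a
  obtain ⟨f, h0, hinc, hpair, -⟩ := chain a H M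
  -- pigeonhole
  obtain ⟨i, hi, j, hj, hij, hmod⟩ : ∃ i ∈ Finset.range (M + 1), ∃ j ∈ Finset.range (M + 1),
      i ≠ j ∧ f i % M = f j % M := by
    apply Finset.exists_ne_map_eq_of_card_lt_of_maps_to (t := Finset.range M)
    · simp
    · intro i _
      simp only [Finset.coe_range, Set.mem_Iio]
      exact Nat.mod_lt _ hMpos
  have key : ∀ i j, i < j → j ≤ M → f i % M = f j % M → rho a ≤ 1 := by
    intro i j hij hj hmod
    have hlt : f i < f j := by
      obtain ⟨d, hd⟩ := Nat.exists_eq_add_of_lt hij
      have : ∀ e, i + e + 1 ≤ M → f i < f (i + e + 1) := by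
        intro e
        induction e with
        | zero => intro h; exact hinc i (by omega)
        | succ k ihk =>
          intro h
          have h1 := ihk (by omega)
          have h2 := hinc (i + k + 1) (by omega)
          have : i + (k + 1) + 1 = i + k + 1 + 1 := by ring
          rw [this]
          omega
      rw [hd]
      exact this d (by omega)
    have hdvd : M ∣ f j - f i := (Nat.modEq_iff_dvd' hlt.le).1 hmod
    have hE := hpair i j hij hj
    set d := f j - f i with hd
    have hdpos : 0 < d := by omega
    have hstep : ∀ k, 1 ≤ k → k ≤ a → Nat.primeCounting (d + k) ≤ Nat.primeCounting d + 1 := by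
      intro k
      induction k with
      | zero => intro h; omega
      | succ k ihk =>
        intro _ hk
        rcases Nat.eq_zero_or_pos k with hk0 | hk0
        · subst hk0
          have := pc_add_le d 1
          simpa using this
        · have h1 := ihk hk0 (by omega)
          have hnp : ¬ (d + k + 1).Prime := by
            intro hp
            have hdk : (k + 1) ∣ d + k + 1 := by
              have e1 : (k + 1) ∣ M := Nat.dvd_factorial (by omega) hk
              have e2 : (k + 1) ∣ d := e1.trans hdvd
              rw [add_assoc]
              exact Dvd.dvd.add e2 dvd_rfl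
            rcases (Nat.dvd_prime hp).1 hdk with h | h
            · omega
            · omega
          have h2 : Nat.primeCounting (d + k + 1) = Nat.primeCounting (d + k) := by
            simp only [Nat.primeCounting, Nat.primeCounting']
            rw [Nat.count_succ, if_neg hnp]
            rfl
          rw [← add_assoc, h2]
          exact h1
    rcases Nat.eq_zero_or_pos a with ha | ha
    · have : rho a ≤ 0 := by
        rw [ha]
        obtain ⟨x, hx⟩ := (rho_attained 0).exists
        simp at hx
        omega
      omega
    · have h1 := hstep a ha le_rfl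
      unfold Ext at hE
      omega
  simp only [Finset.mem_range] at hi hj
  rcases Nat.lt_or_ge i j with h | h
  · exact key i j h (by omega) hmod
  · exact key j i (by omega) (by omega) hmod.symm

end Pool.Agent.H206R2
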